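import Mathlib
import Pool.Agent.Y224.AZ.Stm2
import Pool.Agent.Y126.Toric.Final

/-!
Project AZ (helper224), statement GRP: forms which are killed by square-zero operators with elements of rank one are
products of bilinear forms. The operators give a representation of a free group by unipotent operators, to which
the theorem on Tate forms is applied.
-/

set_option linter.unusedSectionVars false

namespace Pool.Agent.Y809.AZ

open Module Pool.Agent.H204R3.SP Pool.Agent.H204R3.GP Pool.Agent.W522.U Pool.Agent.Y224.AZ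

noncomputable section

variable {K X : Type} [Field K] [CharZero K] [AddCommGroup X] [Module K X]
  {E : Set (End K X)} (h0 : ∀ e ∈ E, e * e = 0) (hs : ∀ e ∈ E, ∀ t : K, t • e ∈ E)

/-- the unit `1 + e` -/
def uu (e : E) : (End K X)ˣ where
  val := 1 + e.1
  inv := 1 - e.1
  val_inv := by
    have := h0 e.1 e.2
    rw [add_mul, mul_sub, mul_one, one_mul, mul_sub, mul_one, this]
    abel
  inv_val := by
    have := h0 e.1 e.2
    rw [sub_mul, mul_add, mul_one, one_mul, mul_add, mul_one, this]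
    abel

/-- the representation of the free group -/
def RR : Representation K (FreeGroup E) X :=
  (Units.coeHom (End K X)).comp (FreeGroup.lift (uu h0))

theorem RR_of (e : E) : RR h0 (FreeGroup.of e) = 1 + e.1 := by
  unfold RR
  rw [MonoidHom.comp_apply, FreeGroup.lift_apply_of]
  rfl

theorem RR_of_inv (e : E) : RR h0 (FreeGroup.of e)⁻¹ = 1 - e.1 := by
  unfold RR
  rw [MonoidHom.comp_apply, map_inv, FreeGroup.lift_apply_of]
  rfl

include hs in
theorem RR_ind {p : End K X → Prop} (p1 : p 1) (pe : ∀ e ∈ E, p (1 + e))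
    (pm : ∀ a b, p a → p b → p (a * b)) (g : FreeGroup E) : p (RR h0 g) := by
  induction g using FreeGroup.induction_on with
  | C1 => rw [map_one]; exact p1
  | of x => rw [RR_of]; exact pe _ x.2
  | inv_of x _ =>
    rw [RR_of_inv]
    have h1 : (1 : End K X) - x.1 = 1 + (-1 : K) • x.1 := by
      rw [neg_smul, one_smul, sub_eq_add_neg]
    rw [h1]
    exact pe _ (hs _ x.2 _)
  | mul a b ha hb => rw [map_mul]; exact pm _ _ ha hb

include hs in
/-- subgroups of finite index contain enough elements -/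
theorem fin_mem (D : Subgroup (FreeGroup E)) (hD : D.FiniteIndex) {e : End K X} (he : e ∈ E) :
    ∃ g ∈ D, RR h0 g = 1 + e := by
  have hn : D.normalCore.index ≠ 0 := by
    have : D.normalCore.FiniteIndex := inferInstance
    exact this.index_ne_zero
  set n := D.normalCore.index with hnd
  have hnK : (n : K) ≠ 0 := Nat.cast_ne_zero.mpr hn
  set e' : E := ⟨((n : K)⁻¹) • e, hs e he _⟩ with he'
  refine ⟨(FreeGroup.of e') ^ n, D.normalCore_le (D.normalCore.pow_index_mem _), ?_⟩
  have h1 : RR h0 (FreeGroup.of e') - 1 = e'.1 := by rw [RR_of]; abel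
  rw [unip_pow (RR h0) (FreeGroup.of e') (by rw [h1]; exact h0 _ e'.2) n, h1, he']
  simp only
  rw [smul_smul, mul_inv_cancel₀ hnK, one_smul]

theorem lie_mem {e : End K X} (he : e ∈ E) : e ∈ lieT (RR h0) (1 : FreeGroup E →* K) := by
  have h1 : RR h0 (FreeGroup.of (⟨e, he⟩ : E)) - 1 = e := by rw [RR_of]; abel
  have h2 := unip_lieT (RR h0) (1 : FreeGroup E →* K) (FreeGroup.of (⟨e, he⟩ : E)) (by rw [h1]; exact h0 e he) rfl
  rwa [h1] at h2

/-- stable under the operators -/
def St (E : Set (End K X)) (U : Submodule K X) : Prop := ∀ e ∈ E, ∀ u ∈ U, e u ∈ U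

include hs in
theorem St.rr {U : Submodule K X} (h : St E U) (g : FreeGroup E) : ∀ u ∈ U, RR h0 g u ∈ U := by
  refine RR_ind h0 hs (p := fun a => ∀ u ∈ U, a u ∈ U) (fun u hu => hu) ?_ ?_ g
  · intro e he u hu
    rw [LinearMap.add_apply]
    exact U.add_mem hu (h e he u hu)
  · intro a b ha hb u hu
    exact ha _ (hb u hu)

include hs in
theorem st_of_fin {D : Subgroup (FreeGroup E)} (hD : D.FiniteIndex) {U : Submodule K X}
    (h : ∀ g ∈ D, ∀ u ∈ U, RR h0 g u ∈ U) : St E U := by
  intro e he u hu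
  obtain ⟨g, hg, hge⟩ := fin_mem h0 hs D hD he
  have h1 := h g hg u hu
  rw [hge, LinearMap.add_apply] at h1
  have h2 := U.sub_mem h1 hu
  rwa [Module.End.one_apply, add_sub_cancel_left] at h2

include hs in
theorem pot_iff {U : Submodule K X} : Pot (RR h0) U ↔ St E U := by
  constructor
  · rintro ⟨D, hD, h⟩
    exact st_of_fin h0 hs hD h
  · intro h
    exact ⟨⊤, inferInstance, fun g _ => h.rr h0 hs g⟩

theorem St.sup {U W : Submodule K X} (h : St E U) (h' : St E W) : St E (U ⊔ W) := by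
  intro e he u hu
  obtain ⟨a, ha, b, hb, rfl⟩ := Submodule.mem_sup.1 hu
  rw [map_add]
  exact Submodule.add_mem_sup (h e he a ha) (h' e he b hb)

theorem St.inf {U W : Submodule K X} (h : St E U) (h' : St E W) : St E (U ⊓ W) :=
  fun e he u hu => ⟨h e he u hu.1, h' e he u hu.2⟩

/-- complements -/
theorem compl [FiniteDimensional K X] {ι : Type} {U : ι → Submodule K X} (hU : ∀ i, St E (U i))
    (hirr : ∀ i, ∀ W ≤ U i, St E W → W = ⊥ ∨ W = U i) (htop : ⨆ i, U i = ⊤) {A : Submodule K X} (hA : St E A) :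
    ∃ W, St E W ∧ IsCompl A W := by
  have hwf : WellFounded ((· > ·) : Submodule K X → Submodule K X → Prop) := wellFounded_gt
  obtain ⟨W, ⟨hW, hAW⟩, hmax⟩ := hwf.has_min {W | St E W ∧ A ⊓ W = ⊥}
    ⟨⊥, fun e _ u hu => by rw [(Submodule.mem_bot K).1 hu, map_zero]; exact Submodule.zero_mem _, inf_bot_eq A⟩
  refine ⟨W, hW, disjoint_iff.mpr hAW, codisjoint_iff.mpr ?_⟩
  rw [eq_top_iff, ← htop]
  refine iSup_le fun i => ?_
  by_contra hcon
  have h1 : (A ⊔ W) ⊓ U i = ⊥ := by
    rcases hirr i ((A ⊔ W) ⊓ U i) inf_le_right ((hA.sup hW).inf (hU i)) with h | h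
    · exact h
    · exact absurd (inf_eq_right.mp h) hcon
  have h2 : A ⊓ (W ⊔ U i) = ⊥ := by
    rw [eq_bot_iff]
    intro a ha
    obtain ⟨w, hw, x, hx, hwx⟩ := Submodule.mem_sup.1 ha.2
    have h3 : x ∈ (A ⊔ W) ⊓ U i := by
      refine ⟨?_, hx⟩
      have h4 : x = a - w := by rw [← hwx]; abel
      rw [h4]
      exact (A ⊔ W).sub_mem (Submodule.mem_sup_left ha.1) (Submodule.mem_sup_right hw)
    rw [h1, Submodule.mem_bot] at h3
    rw [h3, add_zero] at hwx
    rw [← hAW]
    exact ⟨ha.1, hwx ▸ hw⟩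
  refine hmax (W ⊔ U i) ⟨hW.sup (hU i), h2⟩ ?_
  refine lt_of_le_of_ne le_sup_left fun h3 => hcon ?_
  calc U i ≤ W ⊔ U i := le_sup_right
    _ = W := h3.symm
    _ ≤ A ⊔ W := le_sup_right

include hs in
theorem hasProj [FiniteDimensional K X] {ι : Type} {U : ι → Submodule K X} (hU : ∀ i, St E (U i))
    (hirr : ∀ i, ∀ W ≤ U i, St E W → W = ⊥ ∨ W = U i) (htop : ⨆ i, U i = ⊤) : HasProj (RR h0) := by
  intro D hD A hA
  have hA' : St E A := st_of_fin h0 hs hD hA
  obtain ⟨W, hW, hc⟩ := compl hU hirr htop hA'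
  have hdec : ∀ v : X, ∃ a ∈ A, ∃ w ∈ W, a + w = v := by
    intro v
    have : v ∈ A ⊔ W := by rw [hc.sup_eq_top]; trivial
    exact Submodule.mem_sup.1 this
  have hP : ∀ a ∈ A, ∀ w ∈ W, (A.subtype ∘ₗ Submodule.projectionOnto A W hc) (a + w) = a := by
    intro a ha w hw
    rw [LinearMap.comp_apply, map_add, Submodule.projectionOnto_apply_left hc ⟨a, ha⟩,
      Submodule.projectionOnto_apply_right hc ⟨w, hw⟩, add_zero]
    rfl
  refine ⟨A.subtype ∘ₗ Submodule.projectionOnto A W hc, fun v => Subtype.coe_prop _, ?_, ?_⟩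
  · intro a ha
    have := hP a ha 0 W.zero_mem
    rwa [add_zero] at this
  · intro g _ v
    obtain ⟨a, ha, w, hw, rfl⟩ := hdec v
    rw [hP a ha w hw, map_add, hP _ (hA'.rr h0 hs g a ha) _ (hW.rr h0 hs g w hw)]

theorem rank_map [FiniteDimensional K X] {U W : Submodule K X} (hWU : W ≤ U) (p : End K X)
    (hp : ∀ u ∈ U, p u = 0 → u = 0) : finrank K (W.map p) = finrank K W := by
  have h1 : Function.Injective (p.domRestrict W) := by
    rw [← LinearMap.ker_eq_bot, LinearMap.ker_eq_bot']
    intro w hw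
    exact Subtype.ext (hp w (hWU w.2) hw)
  have h2 := LinearMap.finrank_range_of_inj h1
  rwa [LinearMap.range_domRestrict] at h2

/-- forms killed by `e` are invariant under `1 + e` -/
theorem inv_of_kills {κ : Type} [Fintype κ] [DecidableEq κ] {e : End K X} (he : e * e = 0)
    {φ : MultilinearMap K (fun _ : κ => X) K} (hφ : Kills e φ) (v : κ → X) :
    φ (fun k => (1 + e) (v k)) = φ v := by
  classical
  have hNN : ∀ v, e (e v) = 0 := by
    intro v
    rw [← Module.End.mul_apply, he]
    rfl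
  let P : (κ → X) → Polynomial K := fun v => ∑ s : Finset κ,
    Polynomial.C (φ (s.piecewise (fun l => e (v l)) v)) * Polynomial.X ^ s.card
  have hP : ∀ (v : κ → X) (t : K), (P v).eval t = φ (fun k => v k + t • e (v k)) := by
    intro v t
    have h5 : (fun l => v l + t • e (v l)) = (fun l => t • e (v l)) + v := by
      funext l
      rw [Pi.add_apply, add_comm]
    rw [h5, MultilinearMap.map_add_univ]
    simp only [P]
    rw [Polynomial.eval_finsetSum]
    refine Finset.sum_congr rfl fun s _ => ?_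
    rw [Polynomial.eval_mul, Polynomial.eval_C, Polynomial.eval_pow, Polynomial.eval_X]
    have h6 : s.piecewise (fun l => t • e (v l)) v =
        s.piecewise (fun l => t • (s.piecewise (fun l => e (v l)) v) l)
          (s.piecewise (fun l => e (v l)) v) := by
      funext l
      by_cases hl : l ∈ s
      · rw [Finset.piecewise_eq_of_mem _ _ _ hl, Finset.piecewise_eq_of_mem _ _ _ hl,
          Finset.piecewise_eq_of_mem _ _ _ hl]
      · rw [Finset.piecewise_eq_of_notMem _ _ _ hl, Finset.piecewise_eq_of_notMem _ _ _ hl,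
          Finset.piecewise_eq_of_notMem _ _ _ hl]
    rw [h6, MultilinearMap.map_piecewise_smul, Finset.prod_const, smul_eq_mul, mul_comm]
  have hc : ∀ v : κ → X, (P v).coeff 1 = 0 := by
    intro v
    have h3 : (P v).coeff 1 = ∑ k, φ (Function.update v k (e (v k))) := by
      simp only [P, Polynomial.finsetSum_coeff, Polynomial.coeff_C_mul, Polynomial.coeff_X_pow, mul_ite,
        mul_one, mul_zero]
      rw [← Finset.sum_filter]
      symm
      refine Finset.sum_bij (fun k _ => {k}) ?_ ?_ ?_ ?_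
      · intro k _
        simp
      · intro a _ b _ hab
        exact Finset.singleton_injective hab
      · intro s hs
        rw [Finset.mem_filter] at hs
        obtain ⟨a, rfl⟩ := Finset.card_eq_one.1 hs.2.symm
        exact ⟨a, Finset.mem_univ _, rfl⟩
      · intro k _
        rw [Finset.piecewise_singleton]
    rw [h3]
    exact hφ v
  have hd : (P v).derivative = 0 := by
    refine Polynomial.funext fun t => ?_
    rw [Polynomial.eval_zero, ← Polynomial.taylor_coeff_one]
    have h7 : Polynomial.taylor t (P v) = P (fun k => v k + t • e (v k)) := by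
      refine Polynomial.funext fun s => ?_
      rw [Polynomial.taylor_eval, hP, hP]
      congr 1
      funext k
      rw [map_add, map_smul, hNN, smul_zero, add_zero, add_assoc, ← add_smul, add_comm t s]
    rw [h7, hc]
  have h8 := Polynomial.derivative_eq_zero.1 hd
  rw [Polynomial.natDegree_eq_zero] at h8
  obtain ⟨c, hcc⟩ := h8
  have h9 := hP v 1
  have h10 := hP v 0
  rw [← hcc, Polynomial.eval_C] at h9 h10
  simp only [one_smul, zero_smul, add_zero] at h9 h10
  have h11 : (fun k => (1 + e) (v k)) = fun k => v k + e (v k) := by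
    funext k
    rw [LinearMap.add_apply, Module.End.one_apply]
  rw [h11, ← h9, h10]

theorem t_grp : S_GRP := by
  intro K X _ _ _ _ _ _ E ω ι _ U p h0 hs hnd hsk hU hirr hp1 hp2 hp3 hp4 htop hr2 hr1 hB m φ hφ
  classical
  have hU' : ∀ i, St E (U i) := hU
  have hirr' : ∀ i, ∀ W ≤ U i, St E W → W = ⊥ ∨ W = U i := hirr
  have hproj : HasProj (RR h0) := hasProj h0 hs hU' hirr' htop
  -- the strongly irreducible subspaces
  have key : ∀ V : Submodule K X, SI (RR h0) V → ∃ i, (∀ u ∈ V, p i u = 0 → u = 0) ∧ V.map (p i) = U i := by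
    intro V hV
    have hVs : St E V := (pot_iff h0 hs).1 hV.2.1
    obtain ⟨v, hv, hv0⟩ := V.ne_bot_iff.mp hV.1
    obtain ⟨i, hi⟩ : ∃ i, p i v ≠ 0 := by
      by_contra hcon
      push Not at hcon
      exact hv0 (hp4 v hcon)
    have hker : St E (V ⊓ LinearMap.ker (p i)) := by
      intro e he u hu
      refine ⟨hVs e he u hu.1, ?_⟩
      have h1 : p i u = 0 := hu.2
      change p i (e u) = 0
      rw [← hp3 i e he u, h1, map_zero]
    have h1 : V ⊓ LinearMap.ker (p i) = ⊥ := by
      rcases hV.2.2 _ inf_le_left ((pot_iff h0 hs).2 hker) with h | h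
      · exact h
      · exact absurd (LinearMap.mem_ker.1 ((inf_eq_left.mp h) hv)) hi
    have h2 : ∀ u ∈ V, p i u = 0 → u = 0 := by
      intro u hu hpu
      have : u ∈ V ⊓ LinearMap.ker (p i) := ⟨hu, LinearMap.mem_ker.2 hpu⟩
      rwa [h1, Submodule.mem_bot] at this
    refine ⟨i, h2, ?_⟩
    have h3 : V.map (p i) ≤ U i := by
      rintro _ ⟨u, _, rfl⟩
      exact hp1 i u
    have h4 : St E (V.map (p i)) := by
      rintro e he _ ⟨u, hu, rfl⟩
      exact ⟨e u, hVs e he u hu, (hp3 i e he u).symm⟩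
    rcases hirr' i _ h3 h4 with h | h
    · exfalso
      have : p i v ∈ V.map (p i) := ⟨v, hv, rfl⟩
      rw [h, Submodule.mem_bot] at this
      exact hi this
    · exact h
  have hfr : ∀ V : Submodule K X, SI (RR h0) V → 2 ≤ finrank K V := by
    intro V hV
    obtain ⟨i, h1, h2⟩ := key V hV
    have h3 := rank_map le_rfl (p i) h1
    rw [h2] at h3
    rw [← h3]
    exact hr2 i
  have hN1 : ∀ V, SI (RR h0) V → 2 ≤ finrank K V →
      ∃ N ∈ lieT (RR h0) (1 : FreeGroup E →* K), N * N = 0 ∧ finrank K (V.map N) = 1 := by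
    intro V hV _
    obtain ⟨i, h1, h2⟩ := key V hV
    have hVs : St E V := (pot_iff h0 hs).1 hV.2.1
    obtain ⟨e, he, her⟩ := hr1 i
    refine ⟨e, lie_mem h0 he, h0 e he, ?_⟩
    have h3 : V.map e ≤ V := by
      rintro _ ⟨u, hu, rfl⟩
      exact hVs e he u hu
    have h4 := rank_map h3 (p i) h1
    have h5 : (V.map e).map (p i) = (U i).map e := by
      rw [← h2]
      ext x
      constructor
      · rintro ⟨_, ⟨u, hu, rfl⟩, rfl⟩
        exact ⟨p i u, ⟨u, hu, rfl⟩, hp3 i e he u⟩
      · rintro ⟨_, ⟨u, hu, rfl⟩, rfl⟩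
        exact ⟨e u, ⟨u, hu, rfl⟩, (hp3 i e he u).symm⟩
    rw [← h4, h5, her]
  -- invariant pairings
  have hcomm : ∀ i (g : FreeGroup E) (v : X), RR h0 g (p i v) = p i (RR h0 g v) := by
    intro i g
    refine RR_ind h0 hs (p := fun a => ∀ v, a (p i v) = p i (a v)) (fun v => rfl) ?_ ?_ g
    · intro e he v
      rw [LinearMap.add_apply, LinearMap.add_apply, Module.End.one_apply, Module.End.one_apply, map_add,
        hp3 i e he v]
    · intro a b ha hb v
      rw [Module.End.mul_apply, Module.End.mul_apply, hb, ha]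
  have hinvU : ∀ (V : Submodule K X), St E V → ∀ (B : X →ₗ[K] X →ₗ[K] K),
      (∀ e ∈ E, ∀ u ∈ V, ∀ v ∈ V, B (e u) v + B u (e v) = 0) → ∀ (g : FreeGroup E), ∀ u ∈ V, ∀ v ∈ V,
        B (RR h0 g u) (RR h0 g v) = B u v := by
    intro V hVs B hBs g
    have := RR_ind h0 hs (p := fun a => (∀ u ∈ V, a u ∈ V) ∧ ∀ u ∈ V, ∀ v ∈ V, B (a u) (a v) = B u v)
      ⟨fun u hu => hu, fun u _ v _ => rfl⟩ ?_ ?_ g
    · exact this.2
    · intro e he
      refine ⟨fun u hu => ?_, fun u hu v hv => ?_⟩
      · rw [LinearMap.add_apply]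
        exact V.add_mem hu (hVs e he u hu)
      · have h1 := hBs e he u hu v hv
        have h2 := hBs e he (e u) (hVs e he u hu) v hv
        have h3 : e (e u) = 0 := by
          rw [← Module.End.mul_apply, h0 e he]
          rfl
        rw [h3, map_zero, LinearMap.zero_apply, zero_add] at h2
        rw [LinearMap.add_apply, LinearMap.add_apply, Module.End.one_apply, Module.End.one_apply, map_add, map_add,
          LinearMap.add_apply, LinearMap.add_apply, h2]
        linear_combination h1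
    · rintro a b ⟨ha1, ha2⟩ ⟨hb1, hb2⟩
      refine ⟨fun u hu => ha1 _ (hb1 u hu), fun u hu v hv => ?_⟩
      rw [Module.End.mul_apply, Module.End.mul_apply, ha2 _ (hb1 u hu) _ (hb1 v hv), hb2 u hu v hv]
  have hDu : ∀ V, SI (RR h0) V → Du (RR h0) (1 : FreeGroup E →* K) V V := by
    intro V hV
    obtain ⟨i, _, h2⟩ := key V hV
    obtain ⟨B, ⟨u, hu, v, hv, hB0⟩, hBs⟩ := hB i
    rw [← h2] at hu hv
    obtain ⟨u', hu', rfl⟩ := hu
    obtain ⟨v', hv', rfl⟩ := hv
    refine ⟨⊤, inferInstance, B.compl₁₂ (p i) (p i), ⟨u', hu', v', hv', hB0⟩, fun g _ a _ b _ => ?_⟩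
    rw [LinearMap.compl₁₂_apply, LinearMap.compl₁₂_apply, ← hcomm, ← hcomm,
      hinvU (U i) (hU' i) B hBs g _ (hp1 i a) _ (hp1 i b), MonoidHom.one_apply, one_mul]
  have hω : ∀ (g : FreeGroup E) u v, ω (RR h0 g u) (RR h0 g v) = (1 : FreeGroup E →* K) g * ω u v := by
    intro g u v
    rw [MonoidHom.one_apply, one_mul]
    exact hinvU ⊤ (fun _ _ _ _ => trivial) ω (fun e he u _ v _ => hsk e he u v) g u trivial v trivial
  have hT : IsTate (RR h0) (1 : FreeGroup E →* K) m φ := by
    refine ⟨⊤, inferInstance, fun g _ v => ?_⟩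
    rw [MonoidHom.one_apply, one_pow, one_mul]
    exact RR_ind h0 hs (p := fun a => ∀ v, φ (fun k => a (v k)) = φ v) (fun v => rfl)
      (fun e he v => inv_of_kills (h0 e he) (hφ e he) v)
      (fun a b ha hb v => by
        have h1 : (fun k => (a * b) (v k)) = fun k => a (b (v k)) := rfl
        rw [h1, ha (fun k => b (v k)), hb]) g v
  have h1 := Pool.Agent.TH118.CR.nil_det ω hnd hω hN1 hproj
    (fun V hV h2 => absurd (hfr V hV) (by omega)) (fun V _ hV _ _ hn => absurd (hDu V hV) hn) φ hT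
  have h2 := Pool.Agent.Y126.Toric.pt_of_det hDu h1
  refine Submodule.span_mono ?_ h2
  rintro P ⟨σ, B, hBT, rfl⟩
  refine ⟨σ, B, fun l e he u v => ?_, fun v => mmG_apply σ B v⟩
  exact lieT_bil (RR h0) (1 : FreeGroup E →* K) (hBT l) (lie_mem h0 he) u v

end

end Pool.Agent.Y809.AZ
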